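import Mathlib

/-! Integer polynomials that are bounded on the unit circle. -/

namespace Pool.Agent.P.MP_926cae_lc.HP

open Polynomial Finset

/-- A bound on the unit circle. -/
def Bd (f : ℤ[X]) (B : ℝ) : Prop := ∀ z : ℂ, ‖z‖ = 1 → ‖aeval z f‖ ≤ B

section Bd

variable {f g : ℤ[X]} {B B' : ℝ}

theorem Bd.nonneg (h : Bd f B) : 0 ≤ B := (norm_nonneg _).trans (h 1 norm_one)

theorem Bd.mono (h : Bd f B) (hB : B ≤ B') : Bd f B' := fun z hz => (h z hz).trans hB

theorem Bd.zero (hB : 0 ≤ B) : Bd 0 B := fun z _ => by simpa using hB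

theorem Bd.neg (h : Bd f B) : Bd (-f) B := fun z hz => by simpa using h z hz

theorem Bd.coeff (h : Bd f B) (i : ℕ) : |(f.coeff i : ℝ)| ≤ B := by
  have h1 := (f.map (Int.castRingHom ℂ)).sum_sq_norm_coeff_eq_circleAverage
  have h2 : Real.circleAverage (fun θ => ‖(f.map (Int.castRingHom ℂ)).eval θ‖ ^ 2) 0 1 ≤ B ^ 2 := by
    refine Real.circleAverage_mono_on_of_le_circle
      (Continuous.continuousOn (by fun_prop)).circleIntegrable' fun z hz => ?_
    have := h z (by simpa using hz)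
    rw [aeval_def, eval₂_eq_eval_map] at this
    exact pow_le_pow_left₀ (norm_nonneg _) this 2
  by_cases hi : f.coeff i = 0
  · simpa [hi] using h.nonneg
  have h3 := single_le_sum (f := fun i => ‖(f.map (Int.castRingHom ℂ)).coeff i‖ ^ 2)
    (fun _ _ => sq_nonneg _) (show i ∈ (f.map (Int.castRingHom ℂ)).support by simpa using hi)
  have h4 : |(f.coeff i : ℝ)| ^ 2 ≤ B ^ 2 := by
    simpa using h3.trans (h1.le.trans h2)
  exact (pow_le_pow_iff_left₀ (abs_nonneg _) h.nonneg two_ne_zero).1 h4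

theorem Bd.of_coeff {n : ℕ} {H : ℝ} (hn : f.natDegree < n) (h : ∀ i, |(f.coeff i : ℝ)| ≤ H) :
    Bd f (n * H) := fun z hz => by
  rw [aeval_eq_sum_range' hn]
  refine (norm_sum_le _ _).trans ((sum_le_card_nsmul _ _ H fun i _ => ?_).trans (by simp))
  simpa [norm_smul, hz, Int.norm_eq_abs] using h i

theorem Bd.disc (h : Bd f B) {z : ℂ} (hz : ‖z‖ ≤ 1) : ‖aeval z f‖ ≤ B := by
  refine Complex.norm_le_of_forall_mem_frontier_norm_le (f := fun z : ℂ => aeval z f)
    (U := Metric.ball 0 1) Metric.isBounded_ball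
    (Polynomial.differentiable_aeval f).diffContOnCl (fun w hw => h w ?_) ?_
  · rw [frontier_ball _ one_ne_zero] at hw
    simpa using hw
  · rw [closure_ball _ one_ne_zero]
    simpa using hz

theorem Bd.rat (h : Bd f B) {l : ℚ} (hl : |l| ≤ 1) : |((aeval l f : ℚ) : ℝ)| ≤ B := by
  have h1 := h.disc (z := (l : ℂ)) (by
    rw [Complex.norm_ratCast]
    exact_mod_cast hl)
  have h2 : aeval (l : ℂ) f = ((aeval l f : ℚ) : ℂ) := aeval_algebraMap_apply ℂ l f
  rwa [h2, Complex.norm_ratCast] at h1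

theorem Bd.mul (h : Bd f B) (h' : Bd g B') : Bd (f * g) (B * B') := fun z hz => by
  rw [map_mul, norm_mul]
  exact mul_le_mul (h z hz) (h' z hz) (norm_nonneg _) h.nonneg

theorem Bd.pow (h : Bd f B) (n : ℕ) : Bd (f ^ n) (B ^ n) := fun z hz => by
  rw [map_pow, norm_pow]
  exact pow_le_pow_left₀ (norm_nonneg _) (h z hz) n

theorem Bd.sum {ι : Type*} {s : Finset ι} {f : ι → ℤ[X]} (h : ∀ i ∈ s, Bd (f i) B) :
    Bd (∑ i ∈ s, f i) (#s * B) := fun z hz => by
  rw [map_sum]
  exact (norm_sum_le _ _).trans ((sum_le_card_nsmul _ _ B fun i hi => h i hi z hz).trans (by simp))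

theorem Bd.of_X_pow {L : ℕ} (h : Bd (X ^ L * f) B) : Bd f B := fun z hz => by
  simpa [hz] using h z hz

theorem Bd.X_pow (i : ℕ) : Bd (X ^ i) 1 := fun z hz => by simp [hz]

theorem Bd.den_le (h : Bd f B) (hf : f ≠ 0) {l : ℚ} (hl : aeval l f = 0) : (l.den : ℝ) ≤ B := by
  have h1 := Int.natAbs_le_of_dvd_ne_zero (den_dvd_of_is_root hl) (leadingCoeff_ne_zero.2 hf)
  rw [Rat.isFractionRingDen] at h1
  refine le_trans ?_ (h.coeff f.natDegree)
  rw [← Int.cast_abs, ← Nat.cast_natAbs]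
  exact_mod_cast h1

theorem Bd.det {n : Type*} [Fintype n] [DecidableEq n] {A : Matrix n n ℤ[X]}
    (h : ∀ i j, Bd (A i j) B) : Bd A.det ((Fintype.card n).factorial * B ^ Fintype.card n) := by
  rw [Matrix.det_apply, ← Fintype.card_perm, ← card_univ]
  refine Bd.sum fun σ _ => ?_
  have h1 : Bd (∏ i, A (σ i) i) (B ^ Fintype.card n) := fun z hz => by
    rw [map_prod, norm_prod, ← card_univ, ← prod_const]
    exact prod_le_prod (fun _ _ => norm_nonneg _) fun i _ => h _ _ z hz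
  rcases Int.units_eq_one_or (Equiv.Perm.sign σ) with e | e
  · simpa [e] using h1
  · simpa [e] using h1.neg

end Bd

theorem exists_int (l : ℚ) {f : ℤ[X]} {n : ℕ} (hn : f.natDegree ≤ n) :
    ∃ z : ℤ, (l.den : ℚ) ^ n * aeval l f = z := by
  refine ⟨∑ i ∈ range (n + 1), f.coeff i * l.num ^ i * l.den ^ (n - i), ?_⟩
  rw [aeval_eq_sum_range' (Nat.lt_succ_of_le hn), mul_sum]
  push_cast
  refine sum_congr rfl fun i hi => ?_
  obtain ⟨j, rfl⟩ := Nat.exists_eq_add_of_le (Nat.lt_succ_iff.1 (mem_range.1 hi))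
  rw [Nat.add_sub_cancel_left, ← Rat.mul_den_eq_num, zsmul_eq_mul]
  ring

theorem natDegree_det_le {n : Type*} [Fintype n] [DecidableEq n] {A : Matrix n n ℤ[X]}
    {c : n → ℕ} (h : ∀ i j, (A i j).natDegree ≤ c j) : A.det.natDegree ≤ ∑ j, c j := by
  rw [Matrix.det_apply]
  refine natDegree_sum_le_of_forall_le _ _ fun σ _ => (natDegree_smul_le _ _).trans ?_
  exact (natDegree_prod_le _ _).trans (sum_le_sum fun j _ => h _ _)

/-! ### polynomials in two variables -/

/-- A bound for the degree in the inner variable. -/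
def Dz (P : ℤ[X][X]) (n : ℕ) : Prop := ∀ j, (P.coeff j).natDegree ≤ n

/-- A bound for the coefficients. -/
def Bz (P : ℤ[X][X]) (B : ℝ) : Prop := ∀ j, Bd (P.coeff j) B

section Dz

variable {P Q : ℤ[X][X]} {n m : ℕ} {B : ℝ}

theorem swap_coeff (P : ℤ[X][X]) (i j : ℕ) :
    ((Bivariate.swap P).coeff i).coeff j = (P.coeff j).coeff i := by
  induction P using Polynomial.induction_on' with
  | add p q hp hq => simp [hp, hq]
  | monomial n f =>
    induction f using Polynomial.induction_on' with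
    | add p q hp hq => simp only [map_add, coeff_add, hp, hq]
    | monomial m r =>
      rw [Bivariate.swap_monomial_monomial]
      by_cases h1 : m = i <;> by_cases h2 : n = j <;> simp [coeff_monomial, h1, h2]

theorem dz_iff : Dz P n ↔ (Bivariate.swap P).natDegree ≤ n := by
  simp only [Dz, natDegree_le_iff_coeff_eq_zero, Polynomial.ext_iff, swap_coeff, coeff_zero]
  exact ⟨fun h i hi j => h j i hi, fun h j i hi => h i hi j⟩

theorem Dz.mono (h : Dz P n) (hn : n ≤ m) : Dz P m := fun j => (h j).trans hn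

theorem Dz.mul (h : Dz P n) (h' : Dz Q m) : Dz (P * Q) (n + m) := by
  rw [dz_iff] at *
  rw [map_mul]
  exact natDegree_mul_le.trans (add_le_add h h')

theorem Dz.add (h : Dz P n) (h' : Dz Q n) : Dz (P + Q) n := fun j => by
  rw [coeff_add]
  exact natDegree_add_le_of_degree_le (h j) (h' j)

theorem Dz.sub (h : Dz P n) (h' : Dz Q n) : Dz (P - Q) n := fun j => by
  rw [coeff_sub]
  exact (natDegree_sub_le _ _).trans (max_le (h j) (h' j))

theorem Dz.pow (h : Dz P n) (k : ℕ) : Dz (P ^ k) (k * n) := by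
  rw [dz_iff] at *
  rw [map_pow]
  exact natDegree_pow_le.trans (Nat.mul_le_mul_left k h)

theorem Dz.const {f : ℤ[X]} (h : f.natDegree ≤ n) : Dz (C f) n := fun j => by
  rw [coeff_C]
  split_ifs
  · exact h
  · simp

theorem Dz.var : Dz (X : ℤ[X][X]) 0 := fun j => by
  rw [coeff_X]
  split_ifs <;> simp

theorem Dz.derivative (h : Dz P n) : Dz (derivative P) n := fun j => by
  rw [coeff_derivative]
  refine natDegree_mul_le.trans ?_
  rw [← Nat.cast_succ, natDegree_natCast]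
  exact h _

theorem Dz.sum {ι : Type*} {s : Finset ι} {f : ι → ℤ[X][X]} (h : ∀ i ∈ s, Dz (f i) n) :
    Dz (∑ i ∈ s, f i) n := fun j => by
  rw [finsetSum_coeff]
  exact natDegree_sum_le_of_forall_le _ _ fun i hi => h i hi j

theorem Dz.factor (h : Dz (P * Q) n) (h0 : P * Q ≠ 0) : Dz (C P.leadingCoeff * Q) n := by
  have h1 : Dz P _ := dz_iff.2 le_rfl
  have h2 : Dz Q _ := dz_iff.2 le_rfl
  refine ((Dz.const (h1 _)).mul h2).mono ?_
  rw [dz_iff, map_mul, natDegree_mul (by simpa using left_ne_zero_of_mul h0)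
    (by simpa using right_ne_zero_of_mul h0)] at h
  exact h

theorem Dz.of_dvd (h : Dz P n) (h0 : P ≠ 0) (hQ : Q ∣ P) : Dz Q n := by
  rw [dz_iff] at *
  exact (natDegree_le_of_dvd (_root_.map_dvd Bivariate.swap hQ) (by simpa using h0)).trans h

theorem Bz.factor {d : ℕ} (h : Bz (P * Q) B) (h0 : P * Q ≠ 0) (hd : (P * Q).natDegree ≤ d) :
    Bz (C P.leadingCoeff * Q) (2 ^ d * ((d + 1) * B)) := fun j z hz => by
  have hB := (h 0).nonneg
  let φ : ℤ[X] →+* ℂ := (aeval z : ℤ[X] →ₐ[ℤ] ℂ)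
  rw [coeff_C_mul, map_mul, norm_mul]
  have h1 : ‖aeval z P.leadingCoeff‖ ≤ (P.map φ).mahlerMeasure := by
    by_cases e : φ P.leadingCoeff = 0
    · exact (norm_eq_zero.2 e).le.trans (mahlerMeasure_nonneg _)
    · have := leadingCoeff_le_mahlerMeasure (P.map φ)
      rwa [leadingCoeff_map_of_leadingCoeff_ne_zero _ e] at this
  have h2 : ‖aeval z (Q.coeff j)‖ ≤ 2 ^ d * (Q.map φ).mahlerMeasure := by
    have := norm_coeff_le_choose_mul_mahlerMeasure j (Q.map φ)
    rw [coeff_map] at this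
    refine this.trans (mul_le_mul_of_nonneg_right ?_ (mahlerMeasure_nonneg _))
    have h3 : (Q.map φ).natDegree ≤ d :=
      natDegree_map_le.trans ((natDegree_le_of_dvd (dvd_mul_left _ _) h0).trans hd)
    exact_mod_cast (Nat.choose_le_two_pow _ _).trans (Nat.pow_le_pow_right two_pos h3)
  have h3 : ((P * Q).map φ).mahlerMeasure ≤ (d + 1) * B := by
    refine (mahlerMeasure_le_sum_norm_coeff _).trans ?_
    rw [sum_over_range' _ (by simp) (d + 1) (Nat.lt_succ_of_le (natDegree_map_le.trans hd))]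
    refine (sum_le_card_nsmul _ _ B fun i _ => ?_).trans (by simp)
    rw [coeff_map]
    exact h i z hz
  rw [Polynomial.map_mul, mahlerMeasure_mul] at h3
  calc _ ≤ (P.map φ).mahlerMeasure * (2 ^ d * (Q.map φ).mahlerMeasure) :=
        mul_le_mul h1 h2 (norm_nonneg _) (mahlerMeasure_nonneg _)
    _ = 2 ^ d * ((P.map φ).mahlerMeasure * (Q.map φ).mahlerMeasure) := by ring
    _ ≤ _ := by gcongr

theorem Bz.eval {d : ℕ} {U : ℤ[X]} {W : ℝ} (h : Bz P B) (hd : P.natDegree ≤ d) (hU : Bd U W)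
    (hW : 1 ≤ W) : Bd (P.eval U) ((d + 1) * (B * W ^ d)) := by
  rw [eval_eq_sum_range' (Nat.lt_succ_of_le hd)]
  have := Bd.sum (s := range (d + 1)) (f := fun i => P.coeff i * U ^ i) (B := B * W ^ d)
    fun i hi => ((h i).mul (hU.pow i)).mono (mul_le_mul_of_nonneg_left
      (pow_le_pow_right₀ hW (Nat.lt_succ_iff.1 (mem_range.1 hi))) (h 0).nonneg)
  simpa using this

end Dz

end Pool.Agent.P.MP_926cae_lc.HP
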