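import Pool.Agent.P.MP_926cae_lc.HP.A

/-! Resultants, the vanishing lemma and the curve through the point. -/

namespace Pool.Agent.P.MP_926cae_lc.HP

open Polynomial Finset

/-- The value at the point `(l, t)`. -/
noncomputable def ev (l t : ℚ) : ℤ[X][X] →+* ℚ :=
  eval₂RingHom (aeval l : ℤ[X] →ₐ[ℤ] ℚ) t

theorem ev_C (l t : ℚ) (f : ℤ[X]) : ev l t (C f) = aeval l f := by simp [ev]

theorem ev_X (l t : ℚ) : ev l t X = t := by simp [ev]

theorem ev_eq (l t : ℚ) {P : ℤ[X][X]} {d : ℕ} (hd : P.natDegree ≤ d) :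
    ev l t P = ∑ j ∈ range (d + 1), aeval l (P.coeff j) * t ^ j :=
  eval₂_eq_sum_range' _ (Nat.lt_succ_of_le hd) t

section Res

variable {F G : ℤ[X][X]}

theorem res_ne (hF : Irreducible F) (hs : F.natDegree ≠ 0) (h : ¬ F ∣ G) {c c' : ℤ[X]}
    (hc : c ≠ 0) (hc' : c' ≠ 0) : resultant (C c * F) (C c' * G) ≠ 0 := by
  let K := FractionRing ℤ[X]
  have hi := IsFractionRing.injective ℤ[X] K
  have hp := hF.isPrimitive hs
  have h1 := (hp.irreducible_iff_irreducible_map_fraction_map (K := K)).1 hF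
  have h2 : IsCoprime (F.map (algebraMap ℤ[X] K)) (G.map (algebraMap ℤ[X] K)) :=
    h1.coprime_iff_not_dvd.2 fun e => h (hp.dvd_of_fraction_map_dvd_fraction_map e)
  have h3 : ∀ c : ℤ[X], c ≠ 0 → IsUnit (C (algebraMap ℤ[X] K c)) := fun c hc =>
    isUnit_C.2 ((map_ne_zero_iff _ hi).2 hc).isUnit
  have h4 : IsCoprime ((C c * F).map (algebraMap ℤ[X] K)) ((C c' * G).map (algebraMap ℤ[X] K)) := by
    rw [Polynomial.map_mul, Polynomial.map_mul, map_C, map_C,
      isCoprime_mul_unit_left_left (h3 c hc), isCoprime_mul_unit_left_right (h3 c' hc')]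
    exact h2
  have h5 := resultant_ne_zero _ _ h4
  rw [natDegree_map_eq_of_injective hi, natDegree_map_eq_of_injective hi, resultant_map_map] at h5
  exact fun e => h5 (by rw [e, map_zero])

theorem res_deg {a b : ℕ} (hF : Dz F a) (hG : Dz G b) :
    (resultant F G).natDegree ≤ F.natDegree * b + G.natDegree * a := by
  refine (natDegree_det_le (c := fun j => j.addCases (fun _ => b) fun _ => a) fun i j => ?_).trans ?_
  · refine j.addCases (fun j => ?_) fun j => ?_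
    · simp only [sylvester, Matrix.of_apply, Fin.addCases_left]
      split_ifs
      · exact hG _
      · simp
    · simp only [sylvester, Matrix.of_apply, Fin.addCases_right]
      split_ifs
      · exact hF _
      · simp
  · simp [Fin.sum_univ_add]

theorem res_bd {B : ℝ} {d : ℕ} (hB : 1 ≤ B) (hF : Bz F B) (hG : Bz G B) (hd : F.natDegree ≤ d)
    (hd' : G.natDegree ≤ d) : Bd (resultant F G) ((2 * d * B) ^ (2 * d)) := by
  refine (Bd.det (B := B) fun i j => ?_).mono ?_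
  · refine j.addCases (fun j => ?_) fun j => ?_
    · simp only [sylvester, Matrix.of_apply, Fin.addCases_left]
      split_ifs
      · exact hG _
      · exact Bd.zero (by linarith)
    · simp only [sylvester, Matrix.of_apply, Fin.addCases_right]
      split_ifs
      · exact hF _
      · exact Bd.zero (by linarith)
  · rw [Fintype.card_fin, mul_pow]
    have h1 : F.natDegree + G.natDegree ≤ 2 * d := by omega
    refine mul_le_mul ?_ (pow_le_pow_right₀ hB h1) (by positivity) (by positivity)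
    exact_mod_cast (Nat.factorial_le h1).trans (Nat.factorial_le_pow _)

/-- The zero estimate. -/
theorem dvd_of_ord (hF : Irreducible F) (hs : F.natDegree ≠ 0) {a b L : ℕ} (ha : Dz F a)
    (hb : Dz G b) {U : ℤ[X]} (h1 : X ^ L ∣ F.eval U) (h2 : X ^ L ∣ G.eval U)
    (hL : F.natDegree * b + G.natDegree * a < L) : F ∣ G := by
  by_contra h
  have h3 := res_ne hF hs h one_ne_zero one_ne_zero
  rw [C_1, one_mul, one_mul] at h3
  obtain ⟨p, q, -, -, e⟩ := exists_mul_add_mul_eq_C_resultant F G le_rfl le_rfl (Or.inl hs)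
  have h4 := congrArg (eval U) e
  rw [eval_add, eval_mul, eval_mul, eval_C] at h4
  have h5 := natDegree_le_of_dvd (h4 ▸ dvd_add (h1.mul_right _) (h2.mul_right _)) h3
  rw [natDegree_X_pow] at h5
  have := res_deg ha hb
  omega

/-- Two small polynomials have only one common factor that vanishes at the point. -/
theorem dvd_of_ev {l t : ℚ} {A A' : ℤ[X][X]} {d : ℕ} {B : ℝ} (hB : 1 ≤ B) (hF : Irreducible F)
    (hs : F.natDegree ≠ 0) (h0 : A * F ≠ 0) (h0' : A' * G ≠ 0) (hd : (A * F).natDegree ≤ d)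
    (hd' : (A' * G).natDegree ≤ d) (h1 : Bz (A * F) B) (h1' : Bz (A' * G) B) (h2 : ev l t F = 0)
    (h2' : ev l t G = 0) (hq : (2 * d * (2 ^ d * ((d + 1) * B))) ^ (2 * d) < l.den) : F ∣ G := by
  by_contra h
  have hc := leadingCoeff_ne_zero.2 (left_ne_zero_of_mul h0)
  have hc' := leadingCoeff_ne_zero.2 (left_ne_zero_of_mul h0')
  have h3 := res_ne hF hs h hc hc'
  have h4 := res_bd (d := d) (one_le_mul_of_one_le_of_one_le (one_le_pow₀ one_le_two)
    (one_le_mul_of_one_le_of_one_le (by simp) hB)) (h1.factor h0 hd) (h1'.factor h0' hd')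
    ((natDegree_C_mul_le _ _).trans ((natDegree_le_of_dvd (dvd_mul_left _ _) h0).trans hd))
    ((natDegree_C_mul_le _ _).trans ((natDegree_le_of_dvd (dvd_mul_left _ _) h0').trans hd'))
  obtain ⟨p, q, -, -, e⟩ := exists_mul_add_mul_eq_C_resultant (C A.leadingCoeff * F)
    (C A'.leadingCoeff * G) le_rfl le_rfl (Or.inl (by rwa [natDegree_C_mul hc]))
  have h5 := congrArg (ev l t) e
  simp only [map_add, map_mul, h2, h2', mul_zero, zero_mul, add_zero, ev_C] at h5
  exact (h4.den_le h3 h5.symm).not_gt hq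

end Res

theorem vanish {l t : ℚ} {D L n d : ℕ} {U : ℤ[X]} {P : ℤ[X][X]} {B W : ℝ} (hl0 : 0 ≤ l)
    (hl1 : l ≤ 1) (hD : 0 < D) (hDt : ∃ a : ℤ, D * t = a) (hU : Bd U W) (hW : 1 ≤ W)
    (ht : |(t : ℝ)| ≤ W) (htU : |(t : ℝ) - (aeval l U : ℚ)| ≤ W * l ^ L)
    (hd : P.natDegree ≤ d) (hn : Dz P n) (hB : Bz P B) (hL : X ^ L ∣ P.eval U)
    (h : (l.den : ℝ) ^ n * D ^ d * ((d + 1) ^ 2 * B * W ^ d * l ^ L) < 1) : ev l t P = 0 := by
  have hl : |l| ≤ 1 := by rwa [abs_of_nonneg hl0]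
  have hlR : (0 : ℝ) ≤ l := by exact_mod_cast hl0
  have hB0 := (hB 0).nonneg
  obtain ⟨a, ha⟩ := hDt
  choose z hz using fun j => exists_int l (hn j)
  have h1 : (l.den : ℚ) ^ n * D ^ d * ev l t P =
      (∑ j ∈ range (d + 1), z j * a ^ j * D ^ (d - j) : ℤ) := by
    rw [ev_eq l t hd, mul_sum]
    push_cast
    refine sum_congr rfl fun i hi => ?_
    obtain ⟨j, rfl⟩ := Nat.exists_eq_add_of_le (Nat.lt_succ_iff.1 (mem_range.1 hi))
    rw [Nat.add_sub_cancel_left, ← hz, ← ha]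
    ring
  obtain ⟨V, hV⟩ := hL
  have h2 : |((aeval l (P.eval U) : ℚ) : ℝ)| ≤ l ^ L * ((d + 1) * (B * W ^ d)) := by
    have := (hV ▸ hB.eval hd hU hW).of_X_pow.rat hl
    rw [hV, map_mul, map_pow, aeval_X]
    push_cast
    rw [abs_mul, abs_of_nonneg (pow_nonneg hlR L)]
    gcongr
  have h3 : |((ev l t P : ℚ) : ℝ) - (aeval l (P.eval U) : ℚ)| ≤
      (d + 1) * (B * (d * W ^ d * l ^ L)) := by
    rw [ev_eq l t hd, eval_eq_sum_range' (Nat.lt_succ_of_le hd), map_sum]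
    push_cast
    rw [← sum_sub_distrib]
    refine (abs_sum_le_sum_abs _ _).trans ((sum_le_card_nsmul _ _ (B * (d * W ^ d * l ^ L))
      fun j hj => ?_).trans (by simp))
    have hj' := Nat.lt_succ_iff.1 (mem_range.1 hj)
    rw [map_mul, map_pow]
    push_cast
    rw [← mul_sub, abs_mul]
    refine mul_le_mul ((hB j).rat hl) ?_ (abs_nonneg _) hB0
    rcases Nat.eq_zero_or_pos j with rfl | hj0
    · simp only [pow_zero, sub_self, abs_zero]
      positivity
    refine le_trans (abs_pow_sub_pow_le ..) ?_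
    have h4 : max |(t : ℝ)| |((aeval l U : ℚ) : ℝ)| ^ (j - 1) * W ≤ W ^ d := by
      refine le_trans ?_ (pow_le_pow_right₀ hW hj')
      rw [← Nat.sub_add_cancel hj0, pow_succ, Nat.add_sub_cancel]
      gcongr
      exact max_le ht (hU.rat hl)
    have h5 : (j : ℝ) ≤ d := by exact_mod_cast hj'
    calc _ ≤ W * l ^ L * d * max |(t : ℝ)| |((aeval l U : ℚ) : ℝ)| ^ (j - 1) := by gcongr
      _ = d * (max |(t : ℝ)| |((aeval l U : ℚ) : ℝ)| ^ (j - 1) * W) * l ^ L := by ring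
      _ ≤ _ := by gcongr
  have h4 : |((ev l t P : ℚ) : ℝ)| ≤ (d + 1) ^ 2 * B * W ^ d * l ^ L := by
    have := abs_sub_abs_le_abs_sub ((ev l t P : ℚ) : ℝ) (aeval l (P.eval U) : ℚ)
    linarith
  generalize (∑ j ∈ range (d + 1), z j * a ^ j * D ^ (d - j) : ℤ) = w at h1
  have h5 : |(w : ℝ)| < 1 := by
    have h6 : (w : ℝ) = (l.den : ℝ) ^ n * D ^ d * (ev l t P : ℚ) := by exact_mod_cast h1.symm
    rw [h6, abs_mul, abs_of_nonneg (by positivity)]
    exact (mul_le_mul_of_nonneg_left h4 (by positivity)).trans_lt h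
  have h6 : w = 0 := Int.abs_lt_one_iff.1 (by exact_mod_cast h5)
  rw [h6, Int.cast_zero] at h1
  exact (mul_eq_zero.1 h1).resolve_left (by have := l.den_pos; positivity)

theorem exists_irr {l t : ℚ} {P : ℤ[X][X]} (h0 : P ≠ 0) (h : ev l t P = 0) :
    ∃ F, Irreducible F ∧ F ∣ P ∧ ev l t F = 0 := by
  induction P using WfDvdMonoid.induction_on_irreducible with
  | zero => exact absurd rfl h0
  | unit u hu => exact absurd h (hu.map _).ne_zero
  | mul a i ha hi ih =>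
    rw [map_mul, mul_eq_zero] at h
    rcases h with h | h
    · exact ⟨i, hi, dvd_mul_right _ _, h⟩
    · obtain ⟨F, h1, h2, h3⟩ := ih ha h
      exact ⟨F, h1, h2.mul_left _, h3⟩

theorem X_pow_dvd_of_mul {f g : ℤ[X]} {a b j : ℕ} (h : X ^ (j * a + b) ∣ f ^ j * g)
    (hf : ¬ X ^ (a + 1) ∣ f) : X ^ b ∣ g := by
  have h0 : f ≠ 0 := by
    rintro rfl
    exact hf (dvd_zero _)
  obtain ⟨i, f', h1, rfl⟩ := WfDvdMonoid.max_power_factor h0 (irreducible_X (R := ℤ))
  have hi : i ≤ a := by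
    by_contra e
    exact hf ((pow_dvd_pow _ (by omega)).mul_right _)
  have h2 : X ^ (j * i) * X ^ b ∣ X ^ (j * i) * (f' ^ j * g) := by
    rw [← pow_add, ← mul_assoc, mul_comm j i, pow_mul, ← mul_pow, mul_comm i j]
    exact (pow_dvd_pow _ (by gcongr)).trans h
  exact prime_X.pow_dvd_of_dvd_mul_left _ (fun e => h1 (prime_X.dvd_of_dvd_pow e))
    ((mul_dvd_mul_iff_left (pow_ne_zero _ X_ne_zero)).1 h2)

/-- The curve through the point has a contact of high order with the series. -/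
theorem exists_curve {l t : ℚ} {U : ℤ[X]} {d n₀ n₁ L₀ L₁ w : ℕ} {B : ℝ} (hB : 1 ≤ B)
    {P₀ P₁ : ℤ[X][X]} (h0 : P₀ ≠ 0) (h0' : P₁ ≠ 0) (hd : P₀.natDegree ≤ d) (hd' : P₁.natDegree ≤ d)
    (hn : Dz P₀ n₀) (hn' : Dz P₁ n₁) (h1 : Bz P₀ B) (h1' : Bz P₁ B) (h2 : X ^ L₀ ∣ P₀.eval U)
    (h2' : X ^ (d * w + L₁) ∣ P₁.eval U)
    (hV : ∀ P : ℤ[X][X], P.natDegree ≤ d → Bz P (2 ^ d * ((d + 1) * B)) →
      (Dz P n₀ → X ^ L₀ ∣ P.eval U → ev l t P = 0) ∧ (Dz P n₁ → X ^ L₁ ∣ P.eval U → ev l t P = 0))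
    (hq : (2 * d * (2 ^ d * ((d + 1) * B))) ^ (2 * d) < l.den) (hd0 : d ≠ 0) :
    ∃ F, Irreducible F ∧ F.natDegree ≠ 0 ∧ F.natDegree ≤ d ∧ Dz F n₀ ∧ X ^ (w + 1) ∣ F.eval U := by
  have hB' : B ≤ 2 ^ d * ((d + 1) * B) := by
    refine le_trans ?_ (le_mul_of_one_le_left (by positivity) (one_le_pow₀ one_le_two))
    exact le_mul_of_one_le_left (by positivity) (by simp)
  have hq' : 2 ^ d * ((d + 1) * B) < l.den := by
    refine lt_of_le_of_lt ?_ hq
    have : (1 : ℝ) ≤ 2 * d := by exact_mod_cast (by omega : 1 ≤ 2 * d)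
    have h3 : 2 ^ d * ((d + 1) * B) ≤ 2 * d * (2 ^ d * ((d + 1) * B)) :=
      le_mul_of_one_le_left (by positivity) this
    exact h3.trans (le_self_pow₀ (hB.trans (hB'.trans h3)) (by omega))
  obtain ⟨F, hF, ⟨A, hA⟩, hF0⟩ := exists_irr h0
    ((hV P₀ hd fun j => (h1 j).mono hB').1 hn h2)
  have hs : F.natDegree ≠ 0 := fun e => by
    rw [eq_C_of_natDegree_eq_zero e, ev_C] at hF0
    refine (((h1 P₀.natDegree).mono hB').den_le (leadingCoeff_ne_zero.2 h0) ?_).not_gt hq'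
    rw [hA, eq_C_of_natDegree_eq_zero e, coeff_C_mul, map_mul, hF0, zero_mul]
  have hFP : F ∣ P₀ := ⟨A, hA⟩
  refine ⟨F, hF, hs, (natDegree_le_of_dvd hFP h0).trans hd, hn.of_dvd h0 hFP, by_contra fun h => ?_⟩
  obtain ⟨j, G, hG, rfl⟩ := WfDvdMonoid.max_power_factor h0' hF
  have hj : j ≤ d := by
    have := (natDegree_le_of_dvd (dvd_mul_right _ _) h0').trans hd'
    rw [natDegree_pow] at this
    exact (Nat.le_mul_of_pos_right j (Nat.pos_of_ne_zero hs)).trans this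
  rw [eval_mul, eval_pow] at h2'
  have h3 := X_pow_dvd_of_mul (a := w) (b := L₁) ((pow_dvd_pow _ (by gcongr)).trans h2') h
  have h4 := (hV _ ((natDegree_C_mul_le _ _).trans ((natDegree_le_of_dvd (dvd_mul_left _ _)
    h0').trans hd')) (h1'.factor h0' hd')).2 (hn'.factor h0') (by
      rw [eval_mul]
      exact h3.mul_left _)
  rw [map_mul, mul_eq_zero, ev_C] at h4
  rw [mul_comm] at hA
  subst hA
  rcases h4 with h4 | h4
  · refine ((h1'.factor h0' hd' G.natDegree).den_le ?_ ?_).not_gt hq'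
    · rw [coeff_C_mul]
      exact mul_ne_zero (leadingCoeff_ne_zero.2 (left_ne_zero_of_mul h0'))
        (leadingCoeff_ne_zero.2 (right_ne_zero_of_mul h0'))
    · rw [coeff_C_mul, map_mul, h4, zero_mul]
  · exact hG (dvd_of_ev hB hF hs h0 h0' hd hd' h1 h1' hF0 h4 hq)

end Pool.Agent.P.MP_926cae_lc.HP
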