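import Pool.Agent.P.MP_926cae_lc.HP.B

/-! Auxiliary polynomials and the differential equation. -/

namespace Pool.Agent.P.MP_926cae_lc.HP

open Polynomial Finset

attribute [local instance] Matrix.seminormedAddCommGroup in
theorem siegel {β : Type} [Fintype β] (g : β → ℤ[X]) {L : ℕ} {A : ℝ} (hL : 0 < L) (hA : 1 ≤ A)
    (h2 : 2 * L ≤ Fintype.card β) (hg : ∀ b, ∀ i < L, |((g b).coeff i : ℝ)| ≤ A) :
    ∃ c : β → ℤ, c ≠ 0 ∧ (∀ b, |(c b : ℝ)| ≤ Fintype.card β * A) ∧ X ^ L ∣ ∑ b, c b • g b := by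
  let M : Matrix (Fin L) β ℤ := Matrix.of fun i b => (g b).coeff i
  obtain ⟨c, h0, h1, h3⟩ := Int.Matrix.exists_ne_zero_int_vec_norm_le M (by simp; omega) (by simpa)
  have hM : ‖M‖ ≤ A := (Matrix.norm_le_iff (by linarith)).2 fun i b => by
    rw [Int.norm_eq_abs]
    exact hg b i i.2
  have hc : (2 * L : ℝ) ≤ Fintype.card β := by exact_mod_cast h2
  have hL' : (1 : ℝ) ≤ L := by exact_mod_cast hL
  refine ⟨c, h0, fun b => ?_, X_pow_dvd_iff.2 fun i hi => ?_⟩
  · rw [← Int.norm_eq_abs]
    refine (norm_le_pi_norm c b).trans (h3.trans ?_)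
    rw [Fintype.card_fin]
    refine (Real.rpow_le_rpow_of_exponent_le (z := 1) (one_le_mul_of_one_le_of_one_le
      (by linarith) (le_max_left _ _)) ((div_le_one (by linarith)).2 (by linarith))).trans ?_
    rw [Real.rpow_one]
    exact mul_le_mul_of_nonneg_left (max_le hA hM) (by positivity)
  · have := congrFun h1 ⟨i, hi⟩
    rw [finsetSum_coeff]
    simpa [Matrix.mulVec, dotProduct, M, mul_comm] using this

theorem siegel_poly {ι : Type} [Fintype ι] (T : ι → ℤ[X] →ₗ[ℤ] ℤ[X]) {N L : ℕ} {A : ℝ}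
    (hL : 0 < L) (hA : 1 ≤ A) (h2 : 2 * L ≤ Fintype.card ι * N)
    (hg : ∀ j, ∀ k < N, ∀ i < L, |((T j (X ^ k)).coeff i : ℝ)| ≤ A) :
    ∃ f : ι → ℤ[X], f ≠ 0 ∧ (∀ j, (f j).natDegree < N) ∧
      (∀ j, Bd (f j) (N * (Fintype.card ι * N * A))) ∧ X ^ L ∣ ∑ j, T j (f j) := by
  obtain ⟨c, h0, h1, h3⟩ := siegel (β := ι × Fin N) (fun b => T b.1 (X ^ (b.2 : ℕ))) hL hA
    (by simpa using h2) fun b => hg _ _ b.2.2
  have hN : 1 ≤ N := Nat.pos_of_ne_zero (by
    rintro rfl
    omega)
  have h4 : ∀ j, (ofFn N fun k => c (j, k)).natDegree < N := fun j => ofFn_natDegree_lt hN _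
  refine ⟨fun j => ofFn N fun k => c (j, k), fun e => h0 (funext fun b => ?_), h4, fun j => ?_, ?_⟩
  · exact congrFun (injective_ofFn N ((congrFun e b.1).trans (map_zero _).symm)) b.2
  · refine Bd.of_coeff (h4 j) fun i => ?_
    by_cases hi : i < N
    · rw [ofFn_coeff_eq_val_of_lt _ hi]
      simpa using h1 (j, ⟨i, hi⟩)
    · rw [ofFn_coeff_eq_zero_of_ge _ (not_lt.1 hi), Int.cast_zero, abs_zero]
      positivity
  · rw [Fintype.sum_prod_type] at h3
    convert h3 using 2 with j
    simp only [ofFn_eq_sum_monomial, map_sum]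
    exact sum_congr rfl fun k _ => by rw [← map_smul, smul_X_eq_monomial]

/-- The auxiliary polynomial. -/
theorem exists_aux {U : ℤ[X]} {W : ℝ} (hU : Bd U W) (hW : 1 ≤ W) {d n L : ℕ} (hL : 0 < L)
    (h2 : 2 * L ≤ (d + 1) * (n + 1)) : ∃ P : ℤ[X][X], P ≠ 0 ∧ P.natDegree ≤ d ∧ Dz P n ∧
      Bz P ((d + 1) * (n + 1) ^ 2 * W ^ d) ∧ X ^ L ∣ P.eval U := by
  obtain ⟨f, h0, h1, h3, h4⟩ := siegel_poly (fun j : Fin (d + 1) => LinearMap.mulRight ℤ (U ^ j.1))
    (N := n + 1) (A := W ^ d) hL (one_le_pow₀ hW) (by simpa using h2) fun j k _ i _ =>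
      (((Bd.X_pow k).mul (hU.pow j)).coeff i).trans (by
        rw [one_mul]
        exact pow_le_pow_right₀ hW (Nat.lt_succ_iff.1 j.2))
  refine ⟨ofFn (d + 1) f, fun e => h0 (injective_ofFn _ (e.trans (map_zero _).symm)),
    Nat.lt_succ_iff.1 (ofFn_natDegree_lt (by omega) _), fun j => ?_, fun j => ?_, ?_⟩
  · by_cases hj : j < d + 1
    · rw [ofFn_coeff_eq_val_of_lt _ hj]
      exact Nat.lt_succ_iff.1 (h1 _)
    · simp [ofFn_coeff_eq_zero_of_ge _ (not_lt.1 hj)]
  · by_cases hj : j < d + 1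
    · rw [ofFn_coeff_eq_val_of_lt _ hj]
      refine (h3 _).mono (le_of_eq ?_)
      simp only [Fintype.card_fin]
      push_cast
      ring
    · rw [ofFn_coeff_eq_zero_of_ge _ (not_lt.1 hj)]
      exact Bd.zero (by positivity)
  · simpa [ofFn_eq_sum_monomial, eval_finsetSum] using h4

/-- The Euler operator. -/
noncomputable def th : Module.End ℤ ℤ[X] := LinearMap.mulLeft ℤ X ∘ₗ derivative

theorem th_apply (f : ℤ[X]) : th f = X * derivative f := rfl

theorem th_coeff (f : ℤ[X]) (k : ℕ) : (th f).coeff k = k * f.coeff k := by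
  rw [th_apply]
  rcases k with _ | k
  · simp
  · rw [coeff_X_mul, coeff_derivative]
    push_cast
    ring

theorem th_pow_coeff (j : ℕ) (f : ℤ[X]) (k : ℕ) : ((th ^ j) f).coeff k = k ^ j * f.coeff k := by
  induction j with
  | zero => simp
  | succ j ih => rw [pow_succ', Module.End.mul_apply, th_coeff, ih, pow_succ', mul_assoc]

theorem th_dvd {w : ℕ} {f : ℤ[X]} (h : X ^ w ∣ f) : X ^ w ∣ th f :=
  X_pow_dvd_iff.2 fun i hi => by rw [th_coeff, X_pow_dvd_iff.1 h i hi, mul_zero]

theorem th_mul (f g : ℤ[X]) : th (f * g) = th f * g + f * th g := by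
  simp only [th_apply, derivative_mul]
  ring

theorem th_pow (f : ℤ[X]) (e : ℕ) : f * th (f ^ e) = e * f ^ e * th f := by
  rcases e with _ | e
  · simp [th_apply]
  · simp only [th_apply, derivative_pow_succ, map_add, map_natCast, map_one]
    push_cast
    ring

/-- The Euler operator on the coefficients. -/
noncomputable def tz (P : ℤ[X][X]) : ℤ[X][X] := P.sum fun j c => monomial j (th c)

theorem tz_coeff (P : ℤ[X][X]) (j : ℕ) : (tz P).coeff j = th (P.coeff j) := by
  rw [tz, coeff_sum, Polynomial.sum]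
  simp only [coeff_monomial]
  rw [sum_ite_eq']
  split_ifs with h
  · rfl
  · rw [notMem_support_iff.1 h, map_zero]

theorem tz_deg (P : ℤ[X][X]) : (tz P).natDegree ≤ P.natDegree :=
  natDegree_le_iff_coeff_eq_zero.2 fun j hj => by
    rw [tz_coeff, coeff_eq_zero_of_natDegree_lt hj, map_zero]

theorem Dz.tz {P : ℤ[X][X]} {n : ℕ} (h : Dz P n) : Dz (tz P) n := fun j =>
  natDegree_le_iff_coeff_eq_zero.2 fun i hi => by
    rw [tz_coeff, th_coeff, coeff_eq_zero_of_natDegree_lt ((h j).trans_lt hi), mul_zero]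

theorem th_eval (P : ℤ[X][X]) (U : ℤ[X]) :
    th (P.eval U) = (tz P).eval U + (derivative P).eval U * th U := by
  induction P using Polynomial.induction_on' with
  | add p q hp hq =>
    have : tz (p + q) = tz p + tz q := by
      ext1 j
      simp [tz_coeff]
    simp only [this, eval_add, map_add, hp, hq]
    ring
  | monomial n f =>
    have : tz (monomial n f) = monomial n (th f) := by
      ext1 j
      simp only [tz_coeff, coeff_monomial]
      split_ifs <;> simp
    rw [this, derivative_monomial, eval_monomial, eval_monomial, eval_monomial, th_mul, th_apply,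
      th_apply, th_apply, derivative_pow, map_natCast]
    ring

section Ode

variable {F : ℤ[X][X]} {U : ℤ[X]} {w a s : ℕ}

/-- The derivation along the curve. -/
noncomputable def dd (F G : ℤ[X][X]) : ℤ[X][X] := derivative F * tz G - derivative G * tz F

theorem dd_eval (h : X ^ w ∣ F.eval U) (G : ℤ[X][X]) :
    X ^ w ∣ (derivative F).eval U * th (G.eval U) - (dd F G).eval U := by
  have h1 := (th_dvd h).mul_left ((derivative G).eval U)
  convert h1 using 1
  simp only [th_eval, dd, eval_sub, eval_mul]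
  ring

theorem dd_dz (ha : Dz F a) {G : ℤ[X][X]} {b : ℕ} (hb : Dz G b) : Dz (dd F G) (a + b) :=
  (ha.derivative.mul hb.tz).sub (add_comm a b ▸ hb.derivative.mul ha.tz)

theorem dd_deg (F G : ℤ[X][X]) : (dd F G).natDegree ≤ F.natDegree + G.natDegree := by
  have h1 := natDegree_derivative_le F
  have h2 := natDegree_derivative_le G
  have h3 := tz_deg F
  have h4 := tz_deg G
  refine (natDegree_sub_le _ _).trans (max_le ?_ ?_) <;>
    exact natDegree_mul_le.trans (by omega)

theorem ode_iter (h : X ^ w ∣ F.eval U) (ha : Dz F a) (hs : F.natDegree ≤ s) {G : ℤ[X][X]}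
    {b c : ℕ} (hb : Dz G b) (hc : G.natDegree ≤ c) (j : ℕ) : ∃ G' : ℤ[X][X],
      Dz G' (b + 2 * j * a) ∧ G'.natDegree ≤ c + 2 * j * s ∧
      X ^ w ∣ (derivative F).eval U ^ (2 * j) * (th ^ j) (G.eval U) - G'.eval U := by
  induction j with
  | zero => exact ⟨G, by simpa using hb, by simpa using hc, by simp⟩
  | succ j ih =>
    obtain ⟨G', h1, h2, h3⟩ := ih
    have h4 := natDegree_derivative_le F
    refine ⟨derivative F * dd F G' - C ((2 * j : ℕ) : ℤ[X]) * dd F (derivative F) * G',
      Dz.sub ?_ ?_, ?_, ?_⟩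
    · exact (ha.derivative.mul (dd_dz ha h1)).mono (le_of_eq (by ring))
    · exact (((Dz.const (natDegree_natCast _).le).mul (dd_dz ha ha.derivative)).mul h1).mono
        (le_of_eq (by ring))
    · have h5 := dd_deg F G'
      have h6 := dd_deg F (derivative F)
      have h7 := natDegree_C_mul_le ((2 * j : ℕ) : ℤ[X]) (dd F (derivative F))
      have h8 : 2 * (j + 1) * s = 2 * j * s + 2 * s := by ring
      refine (natDegree_sub_le _ _).trans (max_le ?_ ?_) <;>
        exact natDegree_mul_le.trans (by omega)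
    · have h5 := th_pow ((derivative F).eval U) (2 * j)
      have h6 := dd_eval h G'
      have h7 := dd_eval h (derivative F)
      have h8 := th_dvd h3
      rw [map_sub, th_mul] at h8
      rw [pow_succ' th, Module.End.mul_apply]
      simp only [eval_sub, eval_mul, eval_C]
      generalize (derivative F).eval U = Δ at *
      generalize (th ^ j) (G.eval U) = Y at *
      convert dvd_sub (dvd_add (h8.mul_left (Δ ^ 2)) (h6.mul_left Δ))
        (dvd_add (h3.mul_left ((2 * j : ℕ) * Δ * th Δ))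
          (h7.mul_left ((2 * j : ℕ) * G'.eval U))) using 1
      linear_combination (-Δ * Y) * h5

theorem digits_eq_zero {k : ℤ} (hk : 0 < k) {n : ℕ} {c : Fin n → ℤ} (hc : ∀ j, |c j| < k)
    (h : ∑ j : Fin n, k ^ (j : ℕ) * c j = 0) : c = 0 := by
  induction n with
  | zero => exact Subsingleton.elim _ _
  | succ n ih =>
    rw [Fin.sum_univ_succ] at h
    simp only [Fin.val_zero, pow_zero, one_mul, Fin.val_succ, pow_succ', mul_assoc,
      ← mul_sum] at h
    have h1 : c 0 = 0 := Int.eq_zero_of_abs_lt_dvd ⟨-∑ i : Fin n, k ^ (i : ℕ) * c i.succ, by linear_combination h⟩ (hc 0)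
    rw [h1, zero_add] at h
    have h2 := ih (fun j => hc j.succ) ((mul_eq_zero.1 h).resolve_left hk.ne')
    funext j
    exact j.cases h1 fun j => congrFun h2 j

/-- A curve with a contact of high order gives a linear recurrence. -/
theorem exists_rec (hF : Irreducible F) (hs0 : F.natDegree ≠ 0) (hs : F.natDegree ≤ s)
    (ha : Dz F a) {m K : ℕ} {M : ℝ} (hM : 1 ≤ M) (hU : ∀ i, |(U.coeff i : ℝ)| ≤ M)
    (hm : (4 * s * s * 2 + 1) * a < m) (h : X ^ (4 * s * (2 * s * a) + w) ∣ F.eval U)
    (hw : (s + 1) * m ≤ w) (hw' : 2 * s * a < w) {B : ℝ}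
    (hB : m * ((2 * s + 2) * m * (((s + 1) * m) ^ (2 * s) * M)) ≤ B) (hK : m * (B * M) < K)
    (hK' : m ≤ K) : ∃ f : ℤ[X], f ≠ 0 ∧ f.natDegree < m ∧ Bd f B ∧
      ∀ k, K ≤ k → k < w → (f * U).coeff k = 0 := by
  have hm0 : 0 < m := by omega
  have hL1 : (1 : ℝ) ≤ (s + 1) * m := by exact_mod_cast Nat.mul_pos s.succ_pos hm0
  obtain ⟨f, h0, h1, h2, h3⟩ := siegel_poly (ι := Option (Fin (2 * s + 1)))
    (fun o => o.elim LinearMap.id fun j => (th ^ j.1) ∘ₗ LinearMap.mulRight ℤ U) (N := m)
    (L := (s + 1) * m) (A := ((s + 1) * m) ^ (2 * s) * M) (by positivity)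
    (one_le_mul_of_one_le_of_one_le (one_le_pow₀ hL1) hM) (le_of_eq (by simp; ring))
    fun o k _ i hi => by
      rcases o with _ | j
      · exact ((Bd.X_pow k).coeff i).trans
          (one_le_mul_of_one_le_of_one_le (one_le_pow₀ hL1) hM)
      · simp only [Option.elim, LinearMap.comp_apply, LinearMap.mulRight_apply, th_pow_coeff]
        push_cast
        rw [abs_mul, abs_pow, Nat.abs_cast]
        have hi' : (i : ℝ) ≤ (s + 1) * m := by exact_mod_cast hi.le
        refine mul_le_mul ((pow_le_pow_left₀ (by positivity) hi' _).trans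
          (pow_le_pow_right₀ hL1 (Nat.lt_succ_iff.1 j.2))) ?_ (abs_nonneg _) (by positivity)
        rw [coeff_X_pow_mul']
        split_ifs
        · exact hU _
        · simp only [Int.cast_zero, abs_zero]
          linarith
  have h2' : ∀ o, Bd (f o) B := fun o => (h2 o).mono (le_trans (le_of_eq (by
    rw [Fintype.card_option, Fintype.card_fin]
    push_cast
    ring)) hB)
  rw [Fintype.sum_option] at h3
  simp only [Option.elim, LinearMap.comp_apply, LinearMap.mulRight_apply, LinearMap.id_apply] at h3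
  choose G g1 g2 g3 using fun j : Fin (2 * s + 1) => ode_iter h ha hs
    ((Dz.const (h1 (some j)).le).mul Dz.var) (natDegree_C_mul_le _ _) j
  simp only [eval_mul, eval_C, eval_X, natDegree_X] at g2 g3
  have hd := natDegree_derivative_le F
  let Γ := C (f none) * derivative F ^ (4 * s) +
    ∑ j : Fin (2 * s + 1), derivative F ^ (2 * (2 * s - j)) * G j
  have e1 : ∀ (j : Fin (2 * s + 1)) x, 2 * (2 * s - j) * x + 2 * j * x = 4 * s * x := fun j x => by
    rw [← add_mul, ← mul_add, Nat.sub_add_cancel (Nat.lt_succ_iff.1 j.2)]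
    ring
  have h4 : Dz Γ (m + 4 * s * a) := ((Dz.const (h1 _).le).mul (ha.derivative.pow _)).add
    (Dz.sum fun j _ => ((ha.derivative.pow _).mul (g1 j)).mono (by have := e1 j a; omega))
  have h5 : Γ.natDegree ≤ 1 + 4 * s * s := by
    have e2 : ∀ n, (derivative F ^ n).natDegree ≤ n * s := fun n =>
      natDegree_pow_le.trans (Nat.mul_le_mul_left _ (by omega))
    refine natDegree_add_le_of_degree_le ((natDegree_C_mul_le _ _).trans ((e2 _).trans (by omega)))
      (natDegree_sum_le_of_forall_le _ _ fun j _ => natDegree_mul_le.trans ?_)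
    have := e1 j s
    have := e2 (2 * (2 * s - j))
    have := g2 j
    omega
  have h6 : X ^ (4 * s * (2 * s * a) + w) ∣ (derivative F).eval U ^ (4 * s) *
      (f none + ∑ j : Fin (2 * s + 1), (th ^ j.1) (f (some j) * U)) - Γ.eval U := by
    simp only [Γ, eval_add, eval_mul, eval_C, eval_pow, eval_finsetSum]
    rw [mul_add, mul_comm _ (f none), add_sub_add_left_eq_sub, mul_sum, ← sum_sub_distrib]
    refine dvd_sum fun j _ => ?_
    have := e1 j 1
    simp only [mul_one] at this
    have e := (g3 j).mul_left ((derivative F).eval U ^ (2 * (2 * s - j)))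
    rwa [mul_sub, ← mul_assoc ((derivative F).eval U ^ _), ← pow_add, this] at e
  have h7 : F ∣ Γ := dvd_of_ord hF hs0 ha h4 (L := (s + 1) * m)
    ((pow_dvd_pow _ (by omega)).trans h)
    ((dvd_iff_dvd_of_dvd_sub ((pow_dvd_pow _ (by omega)).trans h6)).1 (h3.mul_left _)) (by
      have := Nat.mul_le_mul_right (m + 4 * s * a) hs
      have := Nat.mul_le_mul_right a h5
      nlinarith)
  have h8 : ¬ X ^ (2 * s * a + 1) ∣ (derivative F).eval U := fun e => by
    have h9 := dvd_of_ord hF hs0 ha ha.derivative ((pow_dvd_pow _ (by omega)).trans h) e (by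
      have := Nat.mul_le_mul_right a hs
      have := Nat.mul_le_mul_right a (hd.trans ((Nat.sub_le _ _).trans hs))
      nlinarith)
    have := natDegree_le_of_dvd h9 fun e => hs0 (derivative_eq_zero.1 e)
    omega
  have h9 := X_pow_dvd_iff.1 (X_pow_dvd_of_mul ((dvd_iff_dvd_of_dvd_sub h6).2
    (h.trans (eval_dvd h7))) h8)
  obtain ⟨j, hj⟩ : ∃ j, f (some j) ≠ 0 := by
    by_contra e
    push Not at e
    simp only [e, zero_mul, map_zero, sum_const_zero, add_zero] at h3
    have h10 := eq_zero_of_dvd_of_natDegree_lt h3 (by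
      rw [natDegree_X_pow]
      have := h1 none
      nlinarith)
    exact h0 (funext fun o => o.rec h10 e)
  refine ⟨f (some j), hj, h1 _, h2' _, fun k hk hk' => ?_⟩
  have h10 := h9 k hk'
  rw [coeff_add, coeff_eq_zero_of_natDegree_lt ((h1 _).trans_le (hK'.trans hk)), zero_add,
    finsetSum_coeff] at h10
  simp only [th_pow_coeff] at h10
  refine congrFun (digits_eq_zero (by omega) (fun j => ?_) h10) j
  have h11 : |((f (some j) * U).coeff k : ℝ)| ≤ m * (B * M) := by
    conv_lhs => rw [as_sum_range' _ _ (h1 (some j)), sum_mul, finsetSum_coeff]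
    push_cast
    refine (abs_sum_le_sum_abs _ _).trans ((sum_le_card_nsmul _ _ (B * M) fun i _ => ?_).trans
      (by simp))
    rw [← C_mul_X_pow_eq_monomial, mul_assoc, coeff_C_mul, coeff_X_pow_mul']
    push_cast
    rw [abs_mul]
    refine mul_le_mul ((h2' _).coeff i) ?_ (abs_nonneg _) (h2' none).nonneg
    split_ifs
    · exact hU _
    · simp only [abs_zero]
      linarith
  have hk2 : (K : ℝ) ≤ k := by exact_mod_cast hk
  exact_mod_cast h11.trans_lt (hK.trans_le hk2)

end Ode

end Pool.Agent.P.MP_926cae_lc.HP
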