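import Pool.Agent.P.MP_926cae_lc.HP.C
import Pool.Agent.P.MP_926cae_lc.Period

/-! The denominators of the tails do not grow. -/

namespace Pool.Agent.P.MP_926cae_lc.HP

open Polynomial Finset

theorem norm_aeval_le {l : ℚ} {r : ℕ} [Fact r.Prime] (hr : (r : ℤ) ∣ l.num) (f : ℤ[X]) :
    padicNorm r (aeval l f) ≤ 1 := by
  obtain ⟨z, hz⟩ := exists_int l (f := f) le_rfl
  have h1 : padicNorm r l.den = 1 := (padicNorm.nat_eq_one_iff _).2 fun e =>
    (Fact.out : r.Prime).one_lt.ne' (Nat.dvd_one.1 (l.reduced ▸ Nat.dvd_gcd (Int.natCast_dvd.1 hr) e))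
  have h2 := padicNorm.of_int (p := r) z
  rwa [← hz, padicNorm.mul, IsAbsoluteValue.abv_pow (padicNorm r), h1, one_pow, one_mul] at h2

theorem final {l t : ℚ} {r D₀ m w : ℕ} [Fact r.Prime] (hr : (r : ℤ) ∣ l.num) {f A U : ℤ[X]}
    (hl : |l| ≤ 1) (h0 : f ≠ 0) (hm : f.natDegree ≤ m) {B : ℝ} (hB : Bd f B) (hq : B < l.den)
    (h1 : aeval l f * t = aeval l A) (h2 : X ^ w ∣ f * U - A) (hw : l.den ^ (m + 1) ≤ 2 ^ w) :
    padicNorm r (D₀ * t) ≤ 1 := by
  by_contra h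
  rw [not_le] at h
  have hp : r.Prime := Fact.out
  obtain ⟨V, hV⟩ := h2
  obtain ⟨z, hz⟩ := exists_int l hm
  have h3 : aeval l f * (D₀ * t + -aeval l ((D₀ : ℤ[X]) * U)) = -(l ^ w * aeval l ((D₀ : ℤ[X]) * V)) := by
    have := congrArg (aeval l) hV
    simp only [map_sub, map_mul, map_pow, aeval_X, map_natCast] at this ⊢
    linear_combination D₀ * h1 - D₀ * this
  have h4 : padicNorm r (D₀ * t + -aeval l ((D₀ : ℤ[X]) * U)) = padicNorm r (D₀ * t) := by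
    have h5 : padicNorm r (-aeval l ((D₀ : ℤ[X]) * U)) < padicNorm r (D₀ * t) := by
      rw [padicNorm.neg]
      exact (norm_aeval_le hr _).trans_lt h
    rw [padicNorm.add_eq_max_of_ne h5.ne', max_eq_left h5.le]
  have h5 : padicNorm r l ≤ (r : ℚ) ^ (-1 : ℤ) := by
    have h6 := (padicNorm.dvd_iff_norm_le (p := r) (n := 1) (z := l.num)).1 (by simpa using hr)
    have h1 : padicNorm r l.den = 1 := (padicNorm.nat_eq_one_iff _).2 fun e =>
      hp.one_lt.ne' (Nat.dvd_one.1 (l.reduced ▸ Nat.dvd_gcd (Int.natCast_dvd.1 hr) e))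
    rwa [← Rat.mul_den_eq_num, padicNorm.mul, h1, mul_one] at h6
  have h6 : padicNorm r (aeval l f) ≤ (r : ℚ) ^ (-w : ℤ) := by
    have h7 := congrArg (padicNorm r) h3
    rw [padicNorm.mul, h4, padicNorm.neg, padicNorm.mul (l ^ w),
      IsAbsoluteValue.abv_pow (padicNorm r)] at h7
    calc _ ≤ padicNorm r (aeval l f) * padicNorm r (D₀ * t) :=
          le_mul_of_one_le_right (padicNorm.nonneg _) h.le
      _ ≤ ((r : ℚ) ^ (-1 : ℤ)) ^ w * 1 := by
          rw [h7]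
          exact mul_le_mul (pow_le_pow_left₀ (padicNorm.nonneg _) h5 w) (norm_aeval_le hr _)
            (padicNorm.nonneg _) (by positivity)
      _ = _ := by simp
  have h7 : ((r ^ w : ℕ) : ℤ) ∣ z := padicNorm.dvd_iff_norm_le.2 (by
    rw [← hz, padicNorm.mul, IsAbsoluteValue.abv_pow (padicNorm r)]
    exact (mul_le_of_le_one_left (padicNorm.nonneg _) (pow_le_one₀ (padicNorm.nonneg _)
      (padicNorm.of_nat _))).trans h6)
  have hq0 : (0 : ℝ) < l.den := by exact_mod_cast l.den_pos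
  have h8 : |(z : ℝ)| < (r : ℝ) ^ w := by
    have h9 : (z : ℝ) = (l.den : ℝ) ^ m * (aeval l f : ℚ) := by exact_mod_cast hz.symm
    have h10 : (l.den : ℝ) ^ (m + 1) ≤ (r : ℝ) ^ w := by
      exact_mod_cast hw.trans (Nat.pow_le_pow_left hp.two_le w)
    rw [h9, abs_mul, abs_of_pos (pow_pos hq0 m)]
    exact (mul_lt_mul_of_pos_left ((hB.rat hl).trans_lt hq) (pow_pos hq0 m)).trans_le
      (by rwa [← pow_succ])
  have h9 := Int.eq_zero_of_abs_lt_dvd h7 (by exact_mod_cast h8)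
  rw [h9, Int.cast_zero, mul_eq_zero] at hz
  exact (hB.den_le h0 (hz.resolve_left (by have := l.den_pos; positivity))).not_gt hq

theorem trunc_bd {l t : ℚ} {u : ℕ → ℤ} {M : ℝ} (hl0 : 0 ≤ l) (hl : 2 * l ≤ 1)
    (hu : ∀ n, |(u n : ℝ)| ≤ M) (ht : ∑' n, (u n : ℝ) * (l : ℝ) ^ n = t) (n : ℕ) :
    |(t : ℝ) - (aeval l (ofFn n fun i => u i) : ℚ)| ≤ 2 * M * l ^ n := by
  have h0 : (0 : ℝ) ≤ l := by exact_mod_cast hl0
  have h1 : 2 * (l : ℝ) ≤ 1 := by exact_mod_cast hl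
  have h2 : (l : ℝ) < 1 := by linarith
  have hM := (abs_nonneg _).trans (hu 0)
  have h3 := (summable_bdd h0 h2 hu).sum_add_tsum_nat_add n
  have h4 : ((aeval l (ofFn n fun i => u i) : ℚ) : ℝ) = ∑ i ∈ range n, (u i : ℝ) * (l : ℝ) ^ i := by
    simp [ofFn_eq_sum_monomial, aeval_monomial, sum_range]
  rw [h4, ← ht, ← h3, add_sub_cancel_left]
  simp only [pow_add, ← mul_assoc]
  rw [tsum_mul_right, abs_mul, abs_of_nonneg (pow_nonneg h0 n)]
  refine mul_le_mul_of_nonneg_right ((abs_tsum_le h0 h2 fun k => hu (k + n)).trans ?_)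
    (pow_nonneg h0 n)
  rw [mul_inv_le_iff₀ (by linarith)]
  nlinarith

theorem no_esc {l t : ℚ} {k Z D D₀ r : ℕ} {u : ℕ → ℤ} (hl0 : 0 < l) (hq2 : 2 ≤ l.den)
    (hk : l ^ (k + 1) * l.den ≤ 1) (hq : Z ^ (200 * (k + 4) ^ 3) ≤ l.den) (hZ : l.den < 2 ^ Z)
    (hD : 0 < D) (hDZ : D < 2 ^ Z) (hDt : ∃ a : ℤ, D * t = a) (hu : ∀ n, |u n| ≤ Z)
    (ht : ∑' n, (u n : ℝ) * (l : ℝ) ^ n = t) [Fact r.Prime] (hr : (r : ℤ) ∣ l.num) :
    padicNorm r (D₀ * t) ≤ 1 := by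
  have hZ2 : 2 ≤ Z := by
    by_contra e
    have := Nat.pow_le_pow_right two_pos (show Z ≤ 1 by omega)
    omega
  have h2e : 2 ^ (200 * (k + 4) ^ 3) ≤ l.den := (Nat.pow_le_pow_left hZ2 _).trans hq
  have hk3 : k + 4 ≤ (k + 4) ^ 3 := Nat.le_self_pow three_ne_zero _
  have hZe : 200 * (k + 4) ^ 3 < Z := (Nat.pow_lt_pow_iff_right one_lt_two).1 (h2e.trans_lt hZ)
  have hl2 : 2 * l ≤ 1 := by
    refine (pow_le_one_iff_of_nonneg (by positivity) k.succ_ne_zero).1 (le_trans ?_ hk)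
    rw [mul_pow, mul_comm]
    have : 2 ^ (k + 1) ≤ l.den := (Nat.pow_le_pow_right two_pos (by omega)).trans h2e
    exact mul_le_mul_of_nonneg_left (by exact_mod_cast this) (by positivity)
  obtain ⟨d, hd⟩ : ∃ d, d = 2 * k + 5 := ⟨_, rfl⟩
  have hd2 : 8 * d ^ 2 + 1 < Z := by
    have : (k + 4) ^ 2 ≤ (k + 4) ^ 3 := Nat.pow_le_pow_right (by omega) (by omega)
    nlinarith
  have hdZ : 2 * d + 2 ≤ Z := by omega
  have pw : ∀ {a b : ℕ}, a ≤ b → Z ^ a ≤ Z ^ b := fun h => Nat.pow_le_pow_right (by omega) h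
  have pw' : ∀ {a b c : ℕ}, c ≤ Z → a + 1 ≤ b → c * Z ^ a ≤ Z ^ b := fun hc h =>
    (Nat.mul_le_mul_right _ hc).trans (by rw [← pow_succ']; exact pw h)
  have pos : ∀ a, 0 < Z ^ a := fun a => by positivity
  obtain ⟨w, hw⟩ : ∃ w, w = Z ^ (12 * d + 20) := ⟨_, rfl⟩
  obtain ⟨w', hw'⟩ : ∃ w', w' = 4 * d * (2 * d * Z ^ 2) + w := ⟨_, rfl⟩
  have a1 : 4 * d * (2 * d * Z ^ 2) ≤ w := by
    rw [hw, show 4 * d * (2 * d * Z ^ 2) = 8 * d ^ 2 * Z ^ 2 by ring]
    exact pw' (by omega) (by omega)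
  have a2 : w' ≤ Z ^ (12 * d + 21) := le_trans (by omega) (pw' (c := 2) hZ2 le_rfl)
  obtain ⟨n₁, hn₁⟩ : ∃ n₁, d * w' = n₁ + 1 :=
    Nat.exists_eq_succ_of_ne_zero (Nat.mul_ne_zero (by omega) (by have := pos (12 * d + 20); omega))
  have a3 : n₁ + 1 ≤ Z ^ (12 * d + 22) :=
    hn₁ ▸ (Nat.mul_le_mul_left _ a2).trans (pw' (by omega) le_rfl)
  have a4 : w ≤ n₁ + 1 := hn₁ ▸ le_trans (by omega) (Nat.le_mul_of_pos_left w' (by omega))
  obtain ⟨Ω, hΩ⟩ : ∃ Ω, Ω = (k + 3) * (n₁ + 1) := ⟨_, rfl⟩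
  have a5 : Ω * Z ≤ Z ^ (12 * d + 24) := by
    rw [pow_succ, hΩ]
    exact Nat.mul_le_mul_right _ ((Nat.mul_le_mul_left _ a3).trans (pw' (by omega) le_rfl))
  have hΩ0 : 1 ≤ Ω := hΩ ▸ Nat.mul_pos (by omega) (by omega)
  have huR : ∀ n, |(u n : ℝ)| ≤ Z := fun n => by exact_mod_cast hu n
  have hZR : (1 : ℝ) ≤ Z := by exact_mod_cast (by omega : 1 ≤ Z)
  have pR : ∀ {a b : ℕ}, a ≤ b → (Z : ℝ) ^ a ≤ Z ^ b := fun h => pow_le_pow_right₀ hZR h
  let U : ℤ[X] := ofFn Ω fun i => u i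
  have hUc : ∀ i, |(U.coeff i : ℝ)| ≤ Z := fun i => by
    by_cases hi : i < Ω
    · rw [ofFn_coeff_eq_val_of_lt _ hi]
      exact huR i
    · rw [ofFn_coeff_eq_zero_of_ge _ (not_lt.1 hi), Int.cast_zero, abs_zero]
      positivity
  obtain ⟨W, hW⟩ : ∃ W : ℝ, W = Z ^ (12 * d + 24) := ⟨_, rfl⟩
  have hW1 : 1 ≤ W := hW ▸ one_le_pow₀ hZR
  have hU : Bd U W := (Bd.of_coeff (ofFn_natDegree_lt hΩ0 _) hUc).mono (by
    rw [hW]
    exact_mod_cast a5)
  have h2W : 2 * (Z : ℝ) ≤ W := by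
    rw [hW]
    have := pw' (a := 1) (b := 12 * d + 24) hZ2 (by omega)
    rw [pow_one] at this
    exact_mod_cast this
  have hlR : (0 : ℝ) < l := by exact_mod_cast hl0
  have hlR2 : 2 * (l : ℝ) ≤ 1 := by exact_mod_cast hl2
  obtain ⟨B, hB⟩ : ∃ B : ℝ, B = W ^ (d + 3) := ⟨_, rfl⟩
  have hB1 : 1 ≤ B := hB ▸ one_le_pow₀ hW1
  have hdR : 2 * (d : ℝ) + 2 ≤ Z := by exact_mod_cast hdZ
  have hd0 : (0 : ℝ) ≤ d := Nat.cast_nonneg _
  have b1 : 2 ^ d * ((d + 1) * B) ≤ Z ^ (d + 1 + (12 * d + 24) * (d + 3)) := by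
    rw [hB, hW, ← pow_mul, pow_add, pow_succ, mul_assoc]
    gcongr <;> linarith
  have hqR : (Z : ℝ) ^ (200 * (k + 4) ^ 3) ≤ l.den := by exact_mod_cast hq
  have b2 : ∀ e, e < 200 * (k + 4) ^ 3 → (Z : ℝ) ^ e < l.den := fun e he =>
    (pow_lt_pow_right₀ (by linarith) he).trans_le hqR
  have hV : ∀ (P : ℤ[X][X]) (n L : ℕ), P.natDegree ≤ d → Bz P (2 ^ d * ((d + 1) * B)) →
      Z ^ 2 ≤ n → (k + 2) * (n + 1) ≤ L → L ≤ Ω → Dz P n → X ^ L ∣ P.eval U → ev l t P = 0 := by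
    intro P n L h1 h2 h3 h4 h5 h6 h7
    refine vanish hl0.le (by linarith) hD hDt hU hW1 ?_ ?_ h1 h6 h2 h7 ?_
    · simpa using (trunc_bd hl0.le hl2 huR ht 0).trans (by simpa using h2W)
    · exact (trunc_bd hl0.le hl2 huR ht Ω).trans (mul_le_mul h2W
        (pow_le_pow_of_le_one hlR.le (by linarith) h5) (by positivity) (by positivity))
    · have c1 : (d + 1) ^ 2 * (2 ^ d * ((d + 1) * B)) * W ^ d ≤ l.den := by
        refine le_trans ?_ (b2 (2 + (d + 1 + (12 * d + 24) * (d + 3)) + (12 * d + 24) * d)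
          (by rw [hd]; ring_nf; omega)).le
        rw [pow_add, pow_add _ 2, pow_mul, ← hW]
        gcongr
        linarith
      have c2 : ((l : ℝ) ^ (k + 1) * l.den) ^ (n + 1) ≤ 1 :=
        pow_le_one₀ (by positivity) (by exact_mod_cast hk)
      have c3 : (D : ℝ) ^ d * l ^ (n + 1) < 1 := by
        have c4 : D ^ d < 2 ^ (n + 1) := (Nat.pow_le_pow_left hDZ.le d).trans_lt (by
          rw [← pow_mul]
          exact Nat.pow_lt_pow_right one_lt_two (by nlinarith))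
        calc (D : ℝ) ^ d * l ^ (n + 1) < 2 ^ (n + 1) * l ^ (n + 1) :=
              mul_lt_mul_of_pos_right (by exact_mod_cast c4) (by positivity)
          _ ≤ 1 := by
              rw [← mul_pow]
              exact pow_le_one₀ (by positivity) hlR2
      have c4 : (l : ℝ) ^ L ≤ l ^ ((k + 2) * (n + 1)) :=
        pow_le_pow_of_le_one hlR.le (by linarith) h4
      calc _ ≤ (l.den : ℝ) ^ n * D ^ d * (l.den * l ^ ((k + 2) * (n + 1))) := by gcongr
        _ = ((l : ℝ) ^ (k + 1) * l.den) ^ (n + 1) * (D ^ d * l ^ (n + 1)) := by ring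
        _ ≤ 1 * (D ^ d * l ^ (n + 1)) := by gcongr
        _ < 1 := by rwa [one_mul]
  have a6 : Z ^ 2 ≤ n₁ := by
    have := pw' (a := 2) (b := 12 * d + 20) hZ2 (by omega)
    have := pos 2
    omega
  have b3 : ∀ n : ℕ, n ≤ n₁ → (d + 1) * (n + 1) ^ 2 * W ^ d ≤ B := fun n hn => by
    have c1 : (n : ℝ) + 1 ≤ W := by
      rw [hW]
      exact_mod_cast (Nat.succ_le_succ hn).trans (a3.trans (pw (by omega)))
    rw [hB, show W ^ (d + 3) = W * W ^ 2 * W ^ d by ring]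
    gcongr
    linarith
  obtain ⟨P₀, p1, p2, p3, p4, p5⟩ := exists_aux hU hW1 (d := d) (n := Z ^ 2)
    (L := (k + 2) * (Z ^ 2 + 1)) (by positivity) (by rw [hd]; nlinarith)
  obtain ⟨P₁, q1, q2, q3, q4, q5⟩ := exists_aux hU hW1 (d := d) (n := n₁)
    (L := d * w' + (k + 2) * (n₁ + 1)) (by positivity) (by rw [hn₁, hd]; nlinarith)
  obtain ⟨F, f1, f2, f3, f4, f5⟩ := exists_curve (l := l) (t := t) hB1 p1 q1 p2 q2 p3 q3
    (fun j => (p4 j).mono (b3 _ a6)) (fun j => (q4 j).mono (b3 _ le_rfl)) p5 q5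
    (fun P h1 h2 => ⟨hV P _ _ h1 h2 le_rfl le_rfl (hΩ ▸ Nat.mul_le_mul (by omega) (by omega)),
      hV P _ _ h1 h2 a6 le_rfl (hΩ ▸ Nat.mul_le_mul (by omega) le_rfl)⟩)
    (by
      refine lt_of_le_of_lt ?_ (b2 ((1 + (d + 1 + (12 * d + 24) * (d + 3))) * (2 * d))
        (by rw [hd]; ring_nf; omega))
      rw [pow_mul (Z : ℝ), pow_add _ 1, pow_one]
      gcongr
      linarith) (by omega)
  obtain ⟨K, hK⟩ : ∃ K, K = Z ^ (12 * d + 19) := ⟨_, rfl⟩
  obtain ⟨f, g1, g2, g3, g4⟩ := exists_rec f1 f2 f3 f4 (m := Z ^ 5) (K := K) (w := w) hZR hUc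
    (by
      refine lt_of_lt_of_le ?_ (pw' (a := 2) (c := Z) le_rfl (by omega))
      exact Nat.mul_lt_mul_of_pos_right (by nlinarith) (pos 2))
    (hw' ▸ (pow_dvd_pow _ w'.le_succ).trans f5) (by rw [hw]; exact pw' (by omega) (by omega))
    (by
      have := pw' (a := 2) (b := 12 * d + 20) (c := 2 * d + 1) (by omega) (by omega)
      have := pos 2
      rw [hw]
      nlinarith) (B := Z ^ (12 * d + 12))
    (by
      push_cast
      calc _ ≤ (Z : ℝ) ^ 5 * (Z * Z ^ 5 * ((Z * Z ^ 5) ^ (2 * d) * Z)) := by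
            gcongr
            linarith
        _ = _ := by ring)
    (by
      rw [hK]
      push_cast
      rw [← pow_succ, ← pow_add]
      exact pow_lt_pow_right₀ (by linarith) (by omega)) (by rw [hK]; exact pw (by omega))
  have hK0 : 1 ≤ K := hK ▸ pos _
  have a7 : (k + 2) * (K + 1) ≤ w := by
    have := pw' (a := 12 * d + 19) (c := 2 * (k + 2)) (by omega) le_rfl
    rw [hw]
    nlinarith
  let A : ℤ[X] := ofFn K fun i => (f * U).coeff i
  have g5 : X ^ w ∣ f * U - A := X_pow_dvd_iff.2 fun i hi => by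
    by_cases h : i < K
    · rw [coeff_sub, ofFn_coeff_eq_val_of_lt _ h, sub_self]
    · rw [coeff_sub, ofFn_coeff_eq_zero_of_ge _ (not_lt.1 h), g4 i (not_lt.1 h) hi, sub_self]
  have hA := ofFn_natDegree_lt hK0 fun i => (f * U).coeff i
  have b4 : B ≤ 2 ^ d * ((d + 1) * B) :=
    (le_mul_of_one_le_left (by positivity) (by linarith)).trans
      (le_mul_of_one_le_left (by positivity) (one_le_pow₀ one_le_two))
  have b5 : ∀ e, e ≤ 36 * d + 72 → (Z : ℝ) ^ e ≤ 2 ^ d * ((d + 1) * B) := fun e he => by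
    refine le_trans ?_ b4
    rw [hB, hW, ← pow_mul]
    exact pR (by nlinarith)
  have g6 : Bd A (K * (Z ^ (12 * d + 12) * W)) := Bd.of_coeff hA fun i => by
    by_cases h : i < K
    · rw [ofFn_coeff_eq_val_of_lt _ h]
      exact (g3.mul hU).coeff i
    · rw [ofFn_coeff_eq_zero_of_ge _ (not_lt.1 h), Int.cast_zero, abs_zero]
      positivity
  have g7 := hV (C f * X - C A) K w
    ((natDegree_sub_le _ _).trans (max_le ((natDegree_C_mul_le _ _).trans (by simp; omega))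
      (by simp)))
    (fun j => by
      rcases j with _ | _ | j
      · simpa using g6.neg.mono (by
          rw [hK, hW]
          push_cast
          rw [← pow_add, ← pow_add]
          exact b5 _ (by omega))
      · simpa [coeff_C] using g3.mono (b5 _ (by omega))
      · simpa [coeff_C, coeff_X] using Bd.zero (by positivity))
    (by rw [hK]; exact pw (by omega)) a7 (hΩ ▸ a4.trans (Nat.le_mul_of_pos_left _ (by omega)))
    (((Dz.const (g2.le.trans (by rw [hK]; exact pw (by omega)))).mul Dz.var).sub (Dz.const hA.le))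
    (by simpa using g5)
  rw [map_sub, map_mul, ev_C, ev_C, ev_X, sub_eq_zero] at g7
  refine final hr (by rw [abs_of_pos hl0]; linarith) g1 g2.le g3 (b2 _ (by omega)) g7 g5
    ((Nat.pow_le_pow_left hZ.le _).trans ?_)
  rw [← pow_mul]
  refine Nat.pow_le_pow_right two_pos ?_
  have c1 := pw' (a := 6) (b := 12 * d + 20) hZ2 (by omega)
  have c2 := pos 5
  rw [hw]
  calc Z * (Z ^ 5 + 1) ≤ Z * (2 * Z ^ 5) := Nat.mul_le_mul_left _ (by omega)
    _ = 2 * Z ^ 6 := by ring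
    _ ≤ _ := c1

end Pool.Agent.P.MP_926cae_lc.HP
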