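import Pool.Agent.P.MP_926cae_lc.HP.D

/-! Periodicity of the expansions when the discount factor is a power of its denominator. -/

namespace Pool.Agent.P.MP_926cae_lc.HP

open Finset

theorem periodic_of_esc {p q M : ℕ} {t : ℚ} {u : ℕ → ℕ} (hp : 0 < p) (hpq : p < q) (hM : 0 < M)
    (hu : ∀ n, u n ≤ M) (hlM : (p : ℝ) / q * (2 * M) < 1)
    (hesc : ∀ (s : ℚ) (v : ℕ → ℕ) (r : ℕ) [Fact r.Prime], (∀ n, v n ≤ M) →
      (∃ a : ℤ, ((p * t.den : ℕ) : ℚ) * s = a) → ∑' n, (v n : ℝ) * ((p : ℝ) / q) ^ n = s →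
      r ∣ p → padicNorm r (t.den * s) ≤ 1)
    (ht : ∑' n, (u n : ℝ) * ((p : ℝ) / q) ^ n = t) :
    ∃ n m, 0 < m ∧ ∀ k, n ≤ k → u (k + m) = u k := by
  have hq0 : 0 < q := hp.trans hpq
  have hpR : (0 : ℝ) < p := by exact_mod_cast hp
  have hqR : (0 : ℝ) < q := by exact_mod_cast hq0
  have hMR : (1 : ℝ) ≤ M := by exact_mod_cast hM
  set l : ℝ := p / q with hl
  have hl0 : 0 < l := div_pos hpR hqR
  have hl1 : l < 1 / 2 := by nlinarith
  have hw : ∀ n k, |(u (n + k) : ℝ)| ≤ M := fun n k => by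
    rw [Nat.abs_cast]
    exact_mod_cast hu _
  let x : ℕ → ℝ := fun n => ∑' k, (u (n + k) : ℝ) * l ^ k
  have hx : ∀ n, x n = u n + l * x (n + 1) := fun n => by
    simp only [x]
    rw [tsum_step hl0.le (by linarith) (hw n)]
    simp only [add_zero, add_assoc, add_comm 1]
  have hx0 : ∀ n, 0 ≤ x n := fun n => tsum_nonneg fun k => by positivity
  have hx1 : ∀ n, |x n| ≤ 2 * M := fun n => by
    refine (abs_tsum_le hl0.le (by linarith) (hw n)).trans ?_
    rw [mul_inv_le_iff₀ (by linarith)]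
    nlinarith
  obtain ⟨y, hy0, hys⟩ : ∃ y : ℕ → ℚ, y 0 = t.den * t ∧
      ∀ n, y (n + 1) = q / p * (y n - t.den * u n) :=
    ⟨fun n => Nat.rec (t.den * t) (fun n z => q / p * (z - t.den * u n)) n, rfl, fun _ => rfl⟩
  have hy : ∀ n, y n = t.den * u n + p / q * y (n + 1) := fun n => by
    have h1 : (p : ℚ) ≠ 0 := by exact_mod_cast hp.ne'
    have h2 : (q : ℚ) ≠ 0 := by exact_mod_cast hq0.ne'
    rw [hys]
    field_simp
    ring
  have hyx : ∀ n : ℕ, ((y n : ℚ) : ℝ) = t.den * x n := by
    intro n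
    induction n with
    | zero =>
      have h2 : x 0 = t := by simpa [x] using ht
      rw [hy0, h2]
      push_cast
      rfl
    | succ n ih =>
      have h1 : ((y n : ℚ) : ℝ) = t.den * u n + l * (y (n + 1) : ℚ) := by
        rw [hy n]
        push_cast
        rfl
      rw [ih, hx n] at h1
      exact mul_left_cancel₀ hl0.ne' (by linear_combination -h1)
  have hb : ∀ n, |y n| ≤ 2 * M * t.den := fun n => by
    have h1 : |((y n : ℚ) : ℝ)| ≤ 2 * M * t.den := by
      rw [hyx, abs_mul, Nat.abs_cast, mul_comm]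
      exact mul_le_mul_of_nonneg_right (hx1 n) (Nat.cast_nonneg _)
    exact_mod_cast h1
  have hden : ∀ n, (y n).den = 1 := by
    intro n
    induction n with
    | zero =>
      have h1 : y 0 = t.num := hy0.trans ((mul_comm _ _).trans (Rat.mul_den_eq_num t))
      rw [h1]
      rfl
    | succ n ih =>
      by_contra h1
      obtain ⟨r, hr, hrd⟩ := Nat.exists_prime_and_dvd h1
      have : Fact r.Prime := ⟨hr⟩
      have hq' : (q : ℚ) ≠ 0 := by exact_mod_cast hq0.ne'
      have hD : (t.den : ℚ) ≠ 0 := by exact_mod_cast t.den_nz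
      have h2 : (y (n + 1)).den ∣ p := by
        have := den_succ_dvd (p := p) (q := q) (y := y) (a := fun n => q * t.den * u n)
          (fun n => by
            rw [hy n]
            push_cast
            field_simp
            ring) n
        rwa [ih, mul_one] at this
      obtain ⟨a, ha⟩ := (den_dvd_iff (y (n + 1)) p).1 (Int.natCast_dvd_natCast.2 h2)
      have h3 := hesc (y (n + 1) / t.den) (fun k => u (n + 1 + k)) r (fun k => hu _)
        ⟨a, by rw [← ha]; push_cast; field_simp⟩ (by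
          push_cast
          rw [hyx, mul_div_cancel_left₀ _ (by exact_mod_cast t.den_nz)]) (hrd.trans h2)
      rw [mul_div_cancel₀ _ hD, ← Rat.num_div_den (y (n + 1)), padicNorm.div,
        (padicNorm.int_eq_one_iff _).2 fun e => hr.one_lt.ne' (Nat.dvd_one.1
          ((y (n + 1)).reduced ▸ Nat.dvd_gcd (Int.natCast_dvd.1 e) hrd)),
        div_le_one ((padicNorm.nonneg _).lt_of_ne'
          (padicNorm.nonzero (by exact_mod_cast (y (n + 1)).den_nz)))] at h3
      exact h3.not_gt ((padicNorm.nat_lt_one_iff _).2 hrd)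
  have hmem : ∀ n, (y n).num ∈ Finset.Icc (-(2 * M * t.den : ℤ)) (2 * M * t.den) := fun n => by
    have h1 := hb n
    rw [← Rat.coe_int_num_of_den_eq_one (hden n)] at h1
    rw [mem_Icc, ← abs_le]
    exact_mod_cast h1
  obtain ⟨n, m, hnm, he⟩ := Set.Finite.exists_lt_map_eq_of_forall_mem
    (f := fun n => (y n).num) (fun n => mem_coe.mpr (hmem n)) (finite_toSet _)
  have he1 : x n = x m := by
    have h1 : y n = y m := Rat.ext he ((hden n).trans (hden m).symm)
    have h2 := hyx n
    rw [h1, hyx m] at h2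
    exact (mul_left_cancel₀ (by exact_mod_cast t.den_nz) h2).symm
  have step : ∀ a b, x a = x b → u a = u b ∧ x (a + 1) = x (b + 1) := by
    intro a b hab
    have h1 : ∀ c, ⌊x c⌋₊ = u c := fun c => by
      rw [Nat.floor_eq_iff (hx0 c), hx c]
      have h2 := hx0 (c + 1)
      have h3 := (abs_le.mp (hx1 (c + 1))).2
      constructor <;> nlinarith
    have h2 : u a = u b := by rw [← h1, ← h1, hab]
    refine ⟨h2, mul_left_cancel₀ hl0.ne' ?_⟩
    rw [hx a, hx b, h2] at hab
    linarith
  have all : ∀ k, x (n + k) = x (m + k) := by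
    intro k
    induction k with
    | zero => exact he1
    | succ k ih => exact (step _ _ ih).2
  refine ⟨n, m - n, by omega, fun k hk => ?_⟩
  obtain ⟨j, rfl⟩ := Nat.exists_eq_add_of_le hk
  rw [show n + j + (m - n) = m + j by omega]
  exact (step _ _ (all j)).1.symm


theorem periodic_of_power {p q M k : ℕ} {t : ℚ} {u : ℕ → ℕ} (hp : 0 < p) (hpq : p < q)
    (hc : p.Coprime q) (hu : ∀ n, u n ≤ M) (hk : p ^ (k + 1) ≤ q ^ k)
    (hq : (M + (q * t.den).size) ^ (200 * (k + 4) ^ 3) ≤ q)
    (ht : ∑' n, (u n : ℝ) * ((p : ℝ) / q) ^ n = t) :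
    ∃ n m, 0 < m ∧ ∀ k, n ≤ k → u (k + m) = u k := by
  rcases Nat.eq_zero_or_pos M with rfl | hM
  · exact ⟨0, 1, one_pos, fun k _ => by have := hu k; have := hu (k + 1); omega⟩
  have hq0 : 0 < q := hp.trans hpq
  have hD := t.den_pos
  obtain ⟨Z, hZ⟩ : ∃ Z, Z = M + (q * t.den).size := ⟨_, rfl⟩
  rw [← hZ] at hq
  have h1 : q * t.den < 2 ^ Z :=
    (Nat.lt_size_self _).trans_le (Nat.pow_le_pow_right two_pos (by omega))
  have h2 : 2 ≤ (q * t.den).size := Nat.lt_size.2 (by nlinarith)
  have hnum : ((p : ℚ) / q).num = p := by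
    simpa only [Int.cast_natCast] using Rat.num_div_eq_of_coprime (a := p) (b := q)
      (by exact_mod_cast hq0) (by simpa using hc)
  have hden : ((p : ℚ) / q).den = q := by
    simpa only [Int.cast_natCast, Nat.cast_inj] using Rat.den_div_eq_of_coprime (a := p) (b := q)
      (by exact_mod_cast hq0) (by simpa using hc)
  have hqR : (0 : ℝ) < q := by exact_mod_cast hq0
  refine periodic_of_esc hp hpq hM hu ?_ (fun s v r _ hv hs h hr => ?_) ht
  · have h3 : (p * (2 * M)) ^ (k + 1) < q ^ (k + 1) := by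
      have h4 : (2 * M) ^ (k + 1) < q := by
        refine lt_of_lt_of_le ?_ hq
        have h5 : k + 4 ≤ (k + 4) ^ 3 := Nat.le_self_pow three_ne_zero _
        calc (2 * M) ^ (k + 1) ≤ (Z ^ 2) ^ (k + 1) := Nat.pow_le_pow_left (by nlinarith) _
          _ < _ := by
            rw [← pow_mul]
            exact Nat.pow_lt_pow_right (by omega) (by omega)
      rw [mul_pow, pow_succ q]
      exact Nat.mul_lt_mul_of_le_of_lt hk h4 (by positivity)
    rw [div_mul_eq_mul_div, div_lt_one hqR]
    exact_mod_cast lt_of_pow_lt_pow_left₀ _ (Nat.zero_le _) h3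
  · refine no_esc (l := p / q) (k := k) (Z := Z) (D := p * t.den) (u := fun n => v n)
      (by positivity) (by omega) ?_ (by rwa [hden]) (by rw [hden]; nlinarith) (by positivity)
      (by nlinarith) hs (fun n => ?_) (by simpa using h) (by rw [hnum]; exact_mod_cast hr)
    · rw [hden, div_pow, div_mul_eq_mul_div, div_le_one (by positivity), pow_succ (q : ℚ)]
      exact_mod_cast Nat.mul_le_mul_right q hk
    · have := hv n
      rw [Nat.abs_cast]
      omega

end Pool.Agent.P.MP_926cae_lc.HP
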